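import Pool.Agent.helper29.RPQ.SpecP
import Pool.Agent.helper88.RS.FL0
import Pool.Agent.helper62.QU.All

/-!
# Row rpq:ACC (MP_07c750_an): the derivatives of the packet amplitudes
-/

set_option autoImplicit false

open scoped MatrixGroups ContDiff Topology UpperHalfPlane ComplexConjugate
open UpperHalfPlane MeasureTheory Filter Set

namespace Pool.Agent.RPQ

open Pool.Agent.RS
open Pool.Agent.MS (BA BB st pf gk Dk amk)

noncomputable section

/-! ## Derivatives of the products `pc b a` -/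

theorem ACC_fd (b a : ℝ → ℝ) (hb : ContDiff ℝ ∞ b) (ha : ContDiff ℝ ∞ a) (z : ℍ) :
    fderiv ℝ (QU.onC (pc b a)) (z : ℂ) =
      Complex.ofRealCLM.comp ((b z.re) • ((deriv a (Real.log z.im) * z.im⁻¹) • Complex.imCLM) +
        (a (Real.log z.im)) • (deriv b z.re • Complex.reCLM)) := by
  have h1 : HasFDerivAt (fun w : ℂ => b w.re) (deriv b z.re • Complex.reCLM) (z : ℂ) := by
    have h2 : HasDerivAt b (deriv b z.re) ((z : ℂ).re) :=
      ((hb.differentiable (by simp)) _).hasDerivAt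
    exact h2.comp_hasFDerivAt (z : ℂ) Complex.reCLM.hasFDerivAt
  have h3 : HasFDerivAt (fun w : ℂ => a (Real.log w.im))
      ((deriv a (Real.log z.im) * z.im⁻¹) • Complex.imCLM) (z : ℂ) := by
    have h4 : HasDerivAt a (deriv a (Real.log z.im)) (Real.log z.im) :=
      ((ha.differentiable (by simp)) _).hasDerivAt
    have h5 : HasDerivAt (fun y : ℝ => a (Real.log y)) (deriv a (Real.log z.im) * z.im⁻¹) ((z : ℂ).im) :=
      HasDerivAt.comp z.im h4 (Real.hasDerivAt_log z.im_pos.ne')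
    exact h5.comp_hasFDerivAt (z : ℂ) Complex.imCLM.hasFDerivAt
  have h6 := h1.mul h3
  have h7 := (Complex.ofRealCLM.hasFDerivAt (x := b (z : ℂ).re * a (Real.log (z : ℂ).im))).comp (z : ℂ) h6
  have h8 : QU.onC (pc b a) =ᶠ[𝓝 (z : ℂ)] Complex.ofRealCLM ∘ fun w : ℂ => b w.re * a (Real.log w.im) := by
    have h9 : {w : ℂ | 0 < w.im} ∈ 𝓝 (z : ℂ) :=
      (isOpen_lt continuous_const Complex.continuous_im).mem_nhds z.im_pos
    filter_upwards [h9] with w hw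
    show ((b (ofComplex w).re * a (Real.log (ofComplex w).im) : ℝ) : ℂ) = ((b w.re * a (Real.log w.im) : ℝ) : ℂ)
    rw [FL0_re hw, QU.CA1_im hw]
  rw [h8.fderiv_eq]
  exact h7.fderiv

theorem ACC_dY (b a : ℝ → ℝ) (hb : ContDiff ℝ ∞ b) (ha : ContDiff ℝ ∞ a) :
    QU.dY (pc b a) = pc b (deriv a) := by
  funext z
  show z.im • fderiv ℝ (QU.onC (pc b a)) (z : ℂ) Complex.I = ((b z.re * deriv a (Real.log z.im) : ℝ) : ℂ)
  rw [ACC_fd b a hb ha z]
  have h1 : z.im ≠ 0 := z.im_pos.ne'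
  simp only [ContinuousLinearMap.comp_apply, ContinuousLinearMap.add_apply, ContinuousLinearMap.smul_apply,
    Complex.imCLM_apply, Complex.reCLM_apply, Complex.I_im, Complex.I_re, Complex.ofRealCLM_apply,
    smul_eq_mul, mul_one, mul_zero, add_zero, Complex.real_smul, ← Complex.ofReal_mul]
  congr 1
  field_simp

theorem ACC_dX (b a : ℝ → ℝ) (hb : ContDiff ℝ ∞ b) (ha : ContDiff ℝ ∞ a) :
    QU.dX (pc b a) = pc (deriv b) (fun t => Real.exp t * a t) := by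
  funext z
  show z.im • fderiv ℝ (QU.onC (pc b a)) (z : ℂ) 1 =
    ((deriv b z.re * (Real.exp (Real.log z.im) * a (Real.log z.im)) : ℝ) : ℂ)
  rw [ACC_fd b a hb ha z, Real.exp_log z.im_pos]
  simp only [ContinuousLinearMap.comp_apply, ContinuousLinearMap.add_apply, ContinuousLinearMap.smul_apply,
    Complex.imCLM_apply, Complex.reCLM_apply, Complex.one_im, Complex.one_re, Complex.ofRealCLM_apply,
    smul_eq_mul, mul_one, mul_zero, zero_add, Complex.real_smul, ← Complex.ofReal_mul]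
  congr 1
  ring

/-! ## Scaled products -/

theorem ACC_der {f : ℝ → ℝ} (hf : ContDiff ℝ ∞ f) : ContDiff ℝ ∞ (deriv f) :=
  (contDiff_infty_iff_deriv.1 hf).2

theorem ACC_SBd {r : ℝ} {f : ℝ → ℝ} (hf : SB r f) : SB r (deriv f) := by
  refine ⟨ACC_der hf.1, fun x hx => ?_⟩
  by_contra hc
  have h1 : f =ᶠ[𝓝 x] fun _ => 0 := by
    have h2 : {y : ℝ | r < |y|} ∈ 𝓝 x :=
      (isOpen_lt continuous_const continuous_abs).mem_nhds (not_le.mp hc)
    filter_upwards [h2] with y hy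
    by_contra h3
    exact absurd (hf.2 y h3) (not_le.mpr hy)
  exact hx (by rw [h1.deriv_eq, deriv_const])

theorem ACC_dd {f : ℝ → ℝ} (hf : ContDiff ℝ ∞ f) (K w : ℝ) :
    deriv (fun x => K * f (x / w)) = fun x => (K / w) * deriv f (x / w) := by
  funext x
  have h1 : HasDerivAt f (deriv f (x / w)) (x / w) := ((hf.differentiable (by simp)) _).hasDerivAt
  have h2 : HasDerivAt (fun x : ℝ => x / w) (1 / w) x := (hasDerivAt_id x).div_const w
  have h3 : HasDerivAt (fun x => K * f (x / w)) (K * (deriv f (x / w) * (1 / w))) x :=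
    (HasDerivAt.comp x h1 h2).const_mul K
  rw [h3.deriv]
  ring

/-- the scaled product -/
def ACC_P (B A : ℝ → ℝ) (w l : ℝ) (q : ℝ × ℝ) : ℂ := ((B (q.1 / w) * A (q.2 / l) : ℝ) : ℂ)

theorem ACC_Pc {B A : ℝ → ℝ} (hB : ContDiff ℝ ∞ B) (hA : ContDiff ℝ ∞ A) (w l : ℝ) :
    ContDiff ℝ ∞ (ACC_P B A w l) := by
  have h1 : ContDiff ℝ ∞ fun q : ℝ × ℝ => B (q.1 / w) := hB.comp (contDiff_fst.div_const w)
  have h2 : ContDiff ℝ ∞ fun q : ℝ × ℝ => A (q.2 / l) := hA.comp (contDiff_snd.div_const l)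
  exact Complex.ofRealCLM.contDiff.comp (h1.mul h2)

theorem ACC_bd {G : ℝ × ℝ → ℂ} (hG : ContDiff ℝ ∞ G) (hs : HasCompactSupport G) (k : ℕ) :
    ∃ C : ℝ, 0 < C ∧ ∀ n ≤ k, ∀ p, ‖iteratedFDeriv ℝ n G p‖ ≤ C := by
  induction k with
  | zero =>
    obtain ⟨C, hC⟩ := (hs.iteratedFDeriv (𝕜 := ℝ) 0).exists_bound_of_continuous
      (hG.continuous_iteratedFDeriv (by exact_mod_cast le_top))
    refine ⟨max C 1, by positivity, fun n hn p => ?_⟩
    obtain rfl : n = 0 := by omega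
    exact (hC p).trans (le_max_left _ _)
  | succ k ih =>
    obtain ⟨C, hC0, hC⟩ := ih
    obtain ⟨C', hC'⟩ := (hs.iteratedFDeriv (𝕜 := ℝ) (k + 1)).exists_bound_of_continuous
      (hG.continuous_iteratedFDeriv (by exact_mod_cast le_top))
    refine ⟨max C C', lt_max_of_lt_left hC0, fun n hn p => ?_⟩
    rcases Nat.lt_or_ge k n with h | h
    · obtain rfl : n = k + 1 := by omega
      exact (hC' p).trans (le_max_right _ _)
    · exact (hC n h p).trans (le_max_left _ _)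

theorem ACC_cs {B A : ℝ → ℝ} (hB : SB (1 / 8) B) (hA : SB (1 / 8) A) : HasCompactSupport (ACC_P B A 1 1) := by
  refine HasCompactSupport.of_support_subset_isCompact (K := Icc (-(1 / 8)) (1 / 8) ×ˢ Icc (-(1 / 8)) (1 / 8))
    (isCompact_Icc.prod isCompact_Icc) fun q hq => ?_
  have h1 : B (q.1 / 1) * A (q.2 / 1) ≠ 0 := by
    intro h
    exact hq (by show ((B (q.1 / 1) * A (q.2 / 1) : ℝ) : ℂ) = 0; rw [h, Complex.ofReal_zero])
  rw [div_one, div_one] at h1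
  have h2 := hB.2 _ (left_ne_zero_of_mul h1)
  have h3 := hA.2 _ (right_ne_zero_of_mul h1)
  exact ⟨abs_le.1 h2, abs_le.1 h3⟩

theorem ACC_sc (k : ℕ) {B A : ℝ → ℝ} (hB : SB (1 / 8) B) (hA : SB (1 / 8) A) :
    ∃ C : ℝ, 0 < C ∧ ∀ w l : ℝ, 0 < w → w ≤ l → l ≤ 1 → ∀ n ≤ k, ∀ p,
      ‖iteratedFDeriv ℝ n (ACC_P B A w l) p‖ ≤ C * (1 / w) ^ n := by
  obtain ⟨C, hC0, hC⟩ := ACC_bd (ACC_Pc hB.1 hA.1 1 1) (ACC_cs hB hA) k
  refine ⟨C, hC0, fun w l hw hwl hl n hn p => ?_⟩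
  have hl0 : 0 < l := lt_of_lt_of_le hw hwl
  set L : ℝ × ℝ →L[ℝ] ℝ × ℝ := (w⁻¹ • ContinuousLinearMap.fst ℝ ℝ ℝ).prod (l⁻¹ • ContinuousLinearMap.snd ℝ ℝ ℝ)
    with hL
  have h1 : ACC_P B A w l = ACC_P B A 1 1 ∘ L := by
    funext q
    show ((B (q.1 / w) * A (q.2 / l) : ℝ) : ℂ) = ((B (w⁻¹ * q.1 / 1) * A (l⁻¹ * q.2 / 1) : ℝ) : ℂ)
    rw [div_one, div_one, div_eq_inv_mul, div_eq_inv_mul]
  have h2 : ‖L‖ ≤ 1 / w := by
    refine ContinuousLinearMap.opNorm_le_bound _ (by positivity) fun q => ?_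
    show ‖((w⁻¹ * q.1, l⁻¹ * q.2) : ℝ × ℝ)‖ ≤ 1 / w * ‖q‖
    rw [Prod.norm_def]
    refine max_le ?_ ?_
    · rw [norm_mul, Real.norm_of_nonneg (by positivity : (0 : ℝ) ≤ w⁻¹), one_div]
      exact mul_le_mul_of_nonneg_left (norm_fst_le q) (by positivity)
    · rw [norm_mul, Real.norm_of_nonneg (by positivity : (0 : ℝ) ≤ l⁻¹), one_div]
      exact mul_le_mul (inv_anti₀ hw hwl) (norm_snd_le q) (norm_nonneg _) (by positivity)
  rw [h1, L.iteratedFDeriv_comp_right (ACC_Pc hB.1 hA.1 1 1) p (i := n) (by exact_mod_cast le_top)]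
  refine (ContinuousMultilinearMap.norm_compContinuousLinearMap_le _ _).trans ?_
  rw [Finset.prod_const, Finset.card_univ, Fintype.card_fin]
  exact mul_le_mul (hC n hn _) (pow_le_pow_left₀ (norm_nonneg _) h2 n) (by positivity) hC0.le

/-- the exponential factor -/
def ACC_E (q : ℝ × ℝ) : ℂ := ((Real.exp (2 * q.2) : ℝ) : ℂ)

theorem ACC_Ec : ContDiff ℝ ∞ ACC_E :=
  Complex.ofRealCLM.contDiff.comp (Real.contDiff_exp.comp (contDiff_const.mul contDiff_snd))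

theorem ACC_Eb (k : ℕ) : ∃ C : ℝ, 0 < C ∧ ∀ n ≤ k, ∀ p : ℝ × ℝ, |p.1| ≤ 1 → |p.2| ≤ 1 →
    ‖iteratedFDeriv ℝ n ACC_E p‖ ≤ C := by
  have hK : IsCompact (Icc (-1 : ℝ) 1 ×ˢ Icc (-1 : ℝ) 1) := isCompact_Icc.prod isCompact_Icc
  have hb : ∀ n : ℕ, ∃ C : ℝ, ∀ p ∈ Icc (-1 : ℝ) 1 ×ˢ Icc (-1 : ℝ) 1, ‖iteratedFDeriv ℝ n ACC_E p‖ ≤ C := fun n =>
    hK.exists_bound_of_continuousOn
      (ACC_Ec.continuous_iteratedFDeriv (m := n) (by exact_mod_cast le_top)).continuousOn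
  choose C hC using hb
  refine ⟨1 + ∑ n ∈ Finset.range (k + 1), |C n|, by positivity, fun n hn p h1 h2 => ?_⟩
  have h3 := hC n p ⟨abs_le.1 h1, abs_le.1 h2⟩
  have h4 : |C n| ≤ ∑ n ∈ Finset.range (k + 1), |C n| :=
    Finset.single_le_sum (f := fun n => |C n|) (fun i _ => abs_nonneg _) (Finset.mem_range.2 (by omega))
  linarith [le_abs_self (C n)]

/-- Off the closed box all derivatives vanish. -/
theorem ACC_off {B A : ℝ → ℝ} (hB : SB (1 / 8) B) (hA : SB (1 / 8) A) {w l : ℝ} (hw : 0 < w) (hw1 : w ≤ 1)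
    (hl : 0 < l) (hl1 : l ≤ 1) (n : ℕ) (p : ℝ × ℝ) (hp : ¬ (|p.1| ≤ 1 ∧ |p.2| ≤ 1)) :
    iteratedFDeriv ℝ n (ACC_P B A w l) p = 0 := by
  by_contra hc
  have h1 : p ∈ tsupport (ACC_P B A w l) := support_iteratedFDeriv_subset n hc
  have h2 : tsupport (ACC_P B A w l) ⊆ {q : ℝ × ℝ | |q.1| ≤ 1 ∧ |q.2| ≤ 1} := by
    refine closure_minimal (fun q hq => ?_) ?_
    · have h3 : B (q.1 / w) * A (q.2 / l) ≠ 0 := by
        intro h
        exact hq (by show ((B (q.1 / w) * A (q.2 / l) : ℝ) : ℂ) = 0; rw [h, Complex.ofReal_zero])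
      have h4 := hB.2 _ (left_ne_zero_of_mul h3)
      have h5 := hA.2 _ (right_ne_zero_of_mul h3)
      rw [abs_div, abs_of_pos hw, div_le_iff₀ hw] at h4
      rw [abs_div, abs_of_pos hl, div_le_iff₀ hl] at h5
      exact ⟨by linarith, by linarith⟩
    · exact (isClosed_le (continuous_abs.comp continuous_fst) continuous_const).inter
        (isClosed_le (continuous_abs.comp continuous_snd) continuous_const)
  exact hp (h2 h1)

theorem ACC_PE (k : ℕ) {B A : ℝ → ℝ} (hB : SB (1 / 8) B) (hA : SB (1 / 8) A) :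
    ∃ C : ℝ, 0 < C ∧ ∀ w l : ℝ, 0 < w → w ≤ l → l ≤ 1 → ∀ n ≤ k, ∀ p,
      ‖iteratedFDeriv ℝ n (fun q => ACC_P B A w l q * ACC_E q) p‖ ≤ C * (1 / w) ^ n := by
  obtain ⟨C1, hC10, hC1⟩ := ACC_sc k hB hA
  obtain ⟨C2, hC20, hC2⟩ := ACC_Eb k
  refine ⟨2 ^ k * (C1 * C2), by positivity, fun w l hw hwl hl n hn p => ?_⟩
  have hw1 : w ≤ 1 := hwl.trans hl
  have h1w : 1 ≤ 1 / w := by rw [le_div_iff₀ hw]; linarith
  have h1 := norm_iteratedFDeriv_mul_le (𝕜 := ℝ) (ACC_Pc hB.1 hA.1 w l) ACC_Ec p (n := n)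
    (by exact_mod_cast le_top)
  refine h1.trans ?_
  have h2 : ∀ i ∈ Finset.range (n + 1), (n.choose i : ℝ) * ‖iteratedFDeriv ℝ i (ACC_P B A w l) p‖ *
      ‖iteratedFDeriv ℝ (n - i) ACC_E p‖ ≤ (n.choose i : ℝ) * (C1 * C2 * (1 / w) ^ n) := by
    intro i hi
    have hi' : i ≤ n := Nat.lt_succ_iff.1 (Finset.mem_range.1 hi)
    rw [mul_assoc]
    refine mul_le_mul_of_nonneg_left ?_ (Nat.cast_nonneg _)
    by_cases hp : |p.1| ≤ 1 ∧ |p.2| ≤ 1
    · have h3 := hC1 w l hw hwl hl i (hi'.trans hn) p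
      have h4 := hC2 (n - i) (by omega) p hp.1 hp.2
      have h5 : (1 / w) ^ i ≤ (1 / w) ^ n := pow_le_pow_right₀ h1w hi'
      calc ‖iteratedFDeriv ℝ i (ACC_P B A w l) p‖ * ‖iteratedFDeriv ℝ (n - i) ACC_E p‖
          ≤ (C1 * (1 / w) ^ i) * C2 := mul_le_mul h3 h4 (norm_nonneg _) (by positivity)
        _ ≤ (C1 * (1 / w) ^ n) * C2 :=
            mul_le_mul_of_nonneg_right (mul_le_mul_of_nonneg_left h5 hC10.le) hC20.le
        _ = C1 * C2 * (1 / w) ^ n := by ring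
    · rw [ACC_off hB hA hw hw1 (lt_of_lt_of_le hw hwl) hl i p hp, norm_zero, zero_mul]
      positivity
  refine (Finset.sum_le_sum h2).trans ?_
  rw [← Finset.sum_mul]
  have h6 : (∑ i ∈ Finset.range (n + 1), (n.choose i : ℝ)) = 2 ^ n := by
    exact_mod_cast Nat.sum_range_choose n
  rw [h6]
  have h7 : (2 : ℝ) ^ n ≤ 2 ^ k := pow_le_pow_right₀ (by norm_num) hn
  calc (2 : ℝ) ^ n * (C1 * C2 * (1 / w) ^ n) ≤ 2 ^ k * (C1 * C2 * (1 / w) ^ n) :=
        mul_le_mul_of_nonneg_right h7 (by positivity)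
    _ = 2 ^ k * (C1 * C2) * (1 / w) ^ n := by ring

theorem ACC_smul {G : ℝ × ℝ → ℂ} (hG : ContDiff ℝ ∞ G) (K : ℝ) (n : ℕ) (p : ℝ × ℝ) :
    ‖iteratedFDeriv ℝ n (fun q => K • G q) p‖ = |K| * ‖iteratedFDeriv ℝ n G p‖ := by
  have h0 : ContDiffAt ℝ n G p := hG.contDiffAt.of_le (by exact_mod_cast le_top)
  have h1 : iteratedFDeriv ℝ n (K • G) p = K • iteratedFDeriv ℝ n G p :=
    iteratedFDeriv_const_smul_apply h0
  have h2 : (fun q => K • G q) = K • G := rfl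
  rw [h2, h1, norm_smul, Real.norm_eq_abs]

theorem ACC_add {F G : ℝ × ℝ → ℂ} (hF : ContDiff ℝ ∞ F) (hG : ContDiff ℝ ∞ G) (n : ℕ) (p : ℝ × ℝ) :
    ‖iteratedFDeriv ℝ n (fun q => F q + G q) p‖ ≤ ‖iteratedFDeriv ℝ n F p‖ + ‖iteratedFDeriv ℝ n G p‖ := by
  have h0 : ContDiffAt ℝ n F p := hF.contDiffAt.of_le (by exact_mod_cast le_top)
  have h0' : ContDiffAt ℝ n G p := hG.contDiffAt.of_le (by exact_mod_cast le_top)
  have h1 : iteratedFDeriv ℝ n (F + G) p = iteratedFDeriv ℝ n F p + iteratedFDeriv ℝ n G p :=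
    iteratedFDeriv_add_apply h0 h0'
  have h2 : (fun q => F q + G q) = F + G := rfl
  rw [h2, h1]
  exact norm_add_le _ _

theorem ACC_supp {b a : ℝ → ℝ} {w l : ℝ} (hw : 0 < w) (hl : 0 < l) (hb : SB (w / 8) b) (ha : SB (l / 8) a) (z : ℍ)
    (hz : pc b a z ≠ 0) : |z.re| ≤ w ∧ |Real.log z.im| ≤ l := by
  have h1 : b z.re * a (Real.log z.im) ≠ 0 := by
    intro h
    exact hz (by show ((b z.re * a (Real.log z.im) : ℝ) : ℂ) = 0; rw [h, Complex.ofReal_zero])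
  have h2 := hb.2 _ (left_ne_zero_of_mul h1)
  have h3 := ha.2 _ (right_ne_zero_of_mul h1)
  exact ⟨by linarith, by linarith⟩

theorem ACC_cc (b a : ℝ → ℝ) (q : ℝ × ℝ) : cc (pc b a) q.1 q.2 = ((b q.1 * a q.2 : ℝ) : ℂ) := by
  show ((b q.1 * a (Real.log (Real.exp q.2)) : ℝ) : ℂ) = _
  rw [Real.log_exp]

theorem ACC_proof (hCWB : CWB_stmt) : ACC_stmt := by
  intro k α β hα hβ
  have sα : SB (1 / 8) α := hα.1
  have sβ : SB (1 / 8) β := hβ.1
  have sα1 := ACC_SBd sα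
  have sα2 := ACC_SBd sα1
  have sβ1 := ACC_SBd sβ
  have sβ2 := ACC_SBd sβ1
  obtain ⟨C1, hC10, hC1⟩ := ACC_sc k sβ sα
  obtain ⟨C2, hC20, hC2⟩ := ACC_sc k sβ sα1
  obtain ⟨C3, hC30, hC3⟩ := ACC_PE k sβ2 sα
  obtain ⟨C4, hC40, hC4⟩ := ACC_sc k sβ sα2
  refine ⟨C1 + C2 + C3 + C4, by positivity, fun w l hw hwl hl => ?_⟩
  have hl0 : 0 < l := lt_of_lt_of_le hw hwl
  have hw1 : w ≤ 1 := hwl.trans hl
  obtain ⟨e1, e2, e3, -, -, e6, -⟩ := hCWB α β w l hα hβ hw hw1 hl0 hl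
  set W : ℝ := w ^ (-(1 / 2) : ℝ) with hW
  have hW0 : 0 < W := Real.rpow_pos_of_pos hw _
  have hCD : QU.CD ∞ (cw β α w l) := e6.1
  have hb : st (Real.log w) β = fun x => W * β (x / w) := funext e1
  have ha : sc l α = fun t => 1 / l * α (t / l) := by
    funext t
    show α (t / l) / l = _
    ring
  have sb : SB (w / 8) (fun x => W * β (x / w)) := by rw [← hb]; exact e2.1
  have sa : SB (l / 8) (fun t => 1 / l * α (t / l)) := by rw [← ha]; exact e3.1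
  have db1 := ACC_dd sβ.1 W w
  have db2 := ACC_dd sβ1.1 (W / w) w
  have da1 := ACC_dd sα.1 (1 / l) l
  have da2 := ACC_dd sα1.1 (1 / l / l) l
  have sb1 := ACC_SBd sb
  rw [db1] at sb1
  have sb2 := ACC_SBd sb1
  rw [db2] at sb2
  have sa1 := ACC_SBd sa
  rw [da1] at sa1
  have sa2 := ACC_SBd sa1
  rw [da2] at sa2
  have hc : cw β α w l = pc (fun x => W * β (x / w)) (fun t => 1 / l * α (t / l)) := by
    show pc (st (Real.log w) β) (sc l α) = _
    rw [hb, ha]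
  have hY : QU.dY (cw β α w l) = pc (fun x => W * β (x / w)) (fun t => 1 / l / l * deriv α (t / l)) := by
    rw [hc, ACC_dY _ _ sb.1 sa.1, da1]
  have hYY : QU.dY (QU.dY (cw β α w l)) =
      pc (fun x => W * β (x / w)) (fun t => 1 / l / l / l * deriv (deriv α) (t / l)) := by
    rw [hY, ACC_dY _ _ sb.1 sa1.1, da2]
  have hea : ContDiff ℝ ∞ fun t : ℝ => Real.exp t * (1 / l * α (t / l)) := Real.contDiff_exp.mul sa.1
  have hXX : QU.dX (QU.dX (cw β α w l)) =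
      pc (fun x => W / w / w * deriv (deriv β) (x / w)) (fun t => Real.exp t * (Real.exp t * (1 / l * α (t / l)))) := by
    rw [hc, ACC_dX _ _ sb.1 sa.1, db1, ACC_dX _ _ sb1.1 hea, db2]
  have hCD2 : QU.CD 2 (cw β α w l) := ContDiffOn.of_le hCD (WithTop.coe_le_coe.2 le_top)
  have hlap : ∀ z, QU.lap (cw β α w l) z = -QU.dX (QU.dX (cw β α w l)) z - QU.dY (QU.dY (cw β α w l)) z +
      QU.dY (cw β α w l) z := fun z => (QU.A_CA2 ℂ (cw β α w l) hCD2 z).2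
  have h1w : 1 ≤ 1 / w := by rw [le_div_iff₀ hw]; linarith
  have hpow : ∀ n : ℕ, 0 < (1 / w) ^ n := fun n => by positivity
  refine ⟨⟨hCD, ?_, ?_⟩, ⟨FL0_dY hCD, ?_, ?_⟩, ⟨FL0_lap hCD, ?_, ?_⟩⟩
  · intro z hz
    rw [hc] at hz
    exact ACC_supp hw hl0 sb sa z hz
  · intro n hn p
    have h1 : (fun q : ℝ × ℝ => cc (cw β α w l) q.1 q.2) = fun q => (W / l) • ACC_P β α w l q := by
      funext q
      rw [hc, ACC_cc]
      show _ = (W / l) • ((β (q.1 / w) * α (q.2 / l) : ℝ) : ℂ)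
      rw [Complex.real_smul, ← Complex.ofReal_mul]
      congr 1
      ring
    rw [h1, ACC_smul (ACC_Pc sβ.1 sα.1 w l), abs_of_pos (by positivity : 0 < W / l)]
    have h2 := hC1 w l hw hwl hl n hn p
    calc W / l * ‖iteratedFDeriv ℝ n (ACC_P β α w l) p‖ ≤ W / l * (C1 * (1 / w) ^ n) :=
          mul_le_mul_of_nonneg_left h2 (by positivity)
      _ ≤ (C1 + C2 + C3 + C4) * (W / l) * (1 / w) ^ n := by
          have h3 : 0 ≤ (C2 + C3 + C4) * (W / l) * (1 / w) ^ n := by positivity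
          nlinarith [h3]
  · intro z hz
    rw [hY] at hz
    exact ACC_supp hw hl0 sb sa1 z hz
  · intro n hn p
    have h1 : (fun q : ℝ × ℝ => cc (QU.dY (cw β α w l)) q.1 q.2) =
        fun q => (W / l ^ 2) • ACC_P β (deriv α) w l q := by
      funext q
      rw [hY, ACC_cc]
      show _ = (W / l ^ 2) • ((β (q.1 / w) * deriv α (q.2 / l) : ℝ) : ℂ)
      rw [Complex.real_smul, ← Complex.ofReal_mul]
      congr 1
      field_simp
    rw [h1, ACC_smul (ACC_Pc sβ.1 sα1.1 w l), abs_of_pos (by positivity : 0 < W / l ^ 2)]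
    have h2 := hC2 w l hw hwl hl n hn p
    calc W / l ^ 2 * ‖iteratedFDeriv ℝ n (ACC_P β (deriv α) w l) p‖ ≤ W / l ^ 2 * (C2 * (1 / w) ^ n) :=
          mul_le_mul_of_nonneg_left h2 (by positivity)
      _ ≤ (C1 + C2 + C3 + C4) * (W / l ^ 2) * (1 / w) ^ n := by
          have h3 : 0 ≤ (C1 + C3 + C4) * (W / l ^ 2) * (1 / w) ^ n := by positivity
          nlinarith [h3]
  · intro z hz
    rw [hlap, hXX, hYY, hY] at hz
    by_cases z1 : pc (fun x => W / w / w * deriv (deriv β) (x / w))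
        (fun t => Real.exp t * (Real.exp t * (1 / l * α (t / l)))) z = 0
    · by_cases z2 : pc (fun x => W * β (x / w)) (fun t => 1 / l / l / l * deriv (deriv α) (t / l)) z = 0
      · by_cases z3 : pc (fun x => W * β (x / w)) (fun t => 1 / l / l * deriv α (t / l)) z = 0
        · exact absurd (by rw [z1, z2, z3]; simp) hz
        · exact ACC_supp hw hl0 sb sa1 z z3
      · exact ACC_supp hw hl0 sb sa2 z z2
    · have sea : SB (l / 8) fun t : ℝ => Real.exp t * (Real.exp t * (1 / l * α (t / l))) :=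
        ⟨Real.contDiff_exp.mul hea, fun x hx => sa.2 x (right_ne_zero_of_mul (right_ne_zero_of_mul hx))⟩
      exact ACC_supp hw hl0 sb2 sea z z1
  · intro n hn p
    have h1 : (fun q : ℝ × ℝ => cc (QU.lap (cw β α w l)) q.1 q.2) =
        fun q => ((-(W / w / w / l)) • (ACC_P (deriv (deriv β)) α w l q * ACC_E q) +
          (-(W / l ^ 3)) • ACC_P β (deriv (deriv α)) w l q) + (W / l ^ 2) • ACC_P β (deriv α) w l q := by
      funext q
      have h2 : cc (QU.lap (cw β α w l)) q.1 q.2 = -cc (QU.dX (QU.dX (cw β α w l))) q.1 q.2 -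
          cc (QU.dY (QU.dY (cw β α w l))) q.1 q.2 + cc (QU.dY (cw β α w l)) q.1 q.2 := hlap _
      rw [h2, hXX, hYY, hY, ACC_cc, ACC_cc, ACC_cc]
      show _ = ((-(W / w / w / l)) • (((deriv (deriv β) (q.1 / w) * α (q.2 / l) : ℝ) : ℂ) *
        ((Real.exp (2 * q.2) : ℝ) : ℂ)) + (-(W / l ^ 3)) • ((β (q.1 / w) * deriv (deriv α) (q.2 / l) : ℝ) : ℂ)) +
        (W / l ^ 2) • ((β (q.1 / w) * deriv α (q.2 / l) : ℝ) : ℂ)
      rw [Complex.real_smul, Complex.real_smul, Complex.real_smul, ← Complex.ofReal_mul, ← Complex.ofReal_mul,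
        ← Complex.ofReal_mul, ← Complex.ofReal_mul, ← Complex.ofReal_neg, ← Complex.ofReal_sub,
        ← Complex.ofReal_add, ← Complex.ofReal_add, ← Complex.ofReal_add]
      congr 1
      have h3 : Real.exp (2 * q.2) = Real.exp q.2 * Real.exp q.2 := by rw [two_mul, Real.exp_add]
      rw [h3]
      field_simp
      ring
    have c1 : ContDiff ℝ ∞ fun q => ACC_P (deriv (deriv β)) α w l q * ACC_E q :=
      (ACC_Pc sβ2.1 sα.1 w l).mul ACC_Ec
    have c2 := ACC_Pc sβ.1 sα2.1 w l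
    have c3 := ACC_Pc sβ.1 sα1.1 w l
    have k1 : ContDiff ℝ ∞ fun q => (-(W / w / w / l)) • (ACC_P (deriv (deriv β)) α w l q * ACC_E q) :=
      (contDiff_const (c := -(W / w / w / l))).smul c1
    have k2 : ContDiff ℝ ∞ fun q => (-(W / l ^ 3)) • ACC_P β (deriv (deriv α)) w l q :=
      (contDiff_const (c := -(W / l ^ 3))).smul c2
    have k3 : ContDiff ℝ ∞ fun q => (W / l ^ 2) • ACC_P β (deriv α) w l q :=
      (contDiff_const (c := W / l ^ 2)).smul c3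
    rw [h1]
    refine (ACC_add (k1.add k2) k3 n p).trans ((add_le_add_left (ACC_add k1 k2 n p) _).trans ?_)
    rw [ACC_smul c1, ACC_smul c2, ACC_smul c3, abs_neg, abs_neg, abs_of_pos (by positivity : 0 < W / w / w / l),
      abs_of_pos (by positivity : 0 < W / l ^ 3), abs_of_pos (by positivity : 0 < W / l ^ 2)]
    have hW5 : w ^ (-(5 / 2) : ℝ) = W / w / w := by
      rw [hW, div_div, ← sq, ← Real.rpow_natCast w 2, ← Real.rpow_sub hw]
      norm_num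
    have m1 : W / l ^ 3 ≤ W / w / w / l := by
      rw [div_div, div_div]
      refine div_le_div_of_nonneg_left hW0.le (by positivity) ?_
      nlinarith [mul_le_mul hwl hwl hw.le hl0.le, mul_le_mul_of_nonneg_right (mul_le_mul hwl hwl hw.le hl0.le) hl0.le]
    have m2 : W / l ^ 2 ≤ W / l ^ 3 := by
      refine div_le_div_of_nonneg_left hW0.le (by positivity) ?_
      nlinarith [mul_le_mul_of_nonneg_left hl (by positivity : 0 ≤ l ^ 2)]
    rw [hW5]
    set K : ℝ := W / w / w / l with hK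
    have hK0 : 0 < K := by positivity
    have g1 := hC3 w l hw hwl hl n hn p
    have g2 := hC4 w l hw hwl hl n hn p
    have g3 := hC2 w l hw hwl hl n hn p
    have q1 : K * ‖iteratedFDeriv ℝ n (fun q => ACC_P (deriv (deriv β)) α w l q * ACC_E q) p‖ ≤
        K * (C3 * (1 / w) ^ n) := mul_le_mul_of_nonneg_left g1 hK0.le
    have q2 : W / l ^ 3 * ‖iteratedFDeriv ℝ n (ACC_P β (deriv (deriv α)) w l) p‖ ≤ K * (C4 * (1 / w) ^ n) :=
      mul_le_mul m1 g2 (norm_nonneg _) hK0.le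
    have q3 : W / l ^ 2 * ‖iteratedFDeriv ℝ n (ACC_P β (deriv α) w l) p‖ ≤ K * (C2 * (1 / w) ^ n) :=
      mul_le_mul (m2.trans m1) g3 (norm_nonneg _) hK0.le
    have q4 : 0 ≤ C1 * K * (1 / w) ^ n := by positivity
    calc _ ≤ K * (C3 * (1 / w) ^ n) + K * (C4 * (1 / w) ^ n) + K * (C2 * (1 / w) ^ n) :=
          add_le_add (add_le_add q1 q2) q3
      _ ≤ (C1 + C2 + C3 + C4) * K * (1 / w) ^ n := by nlinarith [q4]

end

end Pool.Agent.RPQ
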